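import Pool.Agent.W845.PM.Base

/-!
# PM-UB: upper bound of the deficiency
-/

set_option autoImplicit false
open scoped Classical
open Filter Topology MeasureTheory ProbabilityTheory
open scoped ENNReal NNReal BigOperators

namespace Pool.Agent.W308.PM
open Pool.Agent.W845.PM

theorem T_le_one (k : ℕ) (ω : Om) : T gA 1 (2 * k) ω ≤ 1 := by
  rcases k with _ | k
  · simp [T]
  · have h : 2 * (k + 1) = (2 * k + 1) + 1 := by ring
    rw [h]
    have h2 : ¬ Even (2 * k + 1) := by
      rw [Nat.not_even_iff_odd]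
      exact ⟨k, rfl⟩
    simp only [T, gA, h2, if_false]
    rw [ENNReal.inv_le_one]
    exact le_self_add

/-- the truncated value -/
noncomputable def phi (u : ℝ≥0∞) : ℝ := (min u 1).toReal

theorem continuous_phi : Continuous phi := by
  unfold phi
  refine ENNReal.continuousOn_toReal.comp_continuous (continuous_id.min continuous_const) ?_
  intro u
  exact ne_top_of_le_ne_top ENNReal.one_ne_top (min_le_right _ _)

theorem phi_eq {u : ℝ≥0∞} (h : u ≤ 1) : phi u = u.toReal := by
  unfold phi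
  rw [min_eq_left h]

/-- **upper bound** -/
theorem ub : S_ZA → S_Z2 → S_LOC → S_AF → S_AN1 → S_ONE → S_UB := by
  intro hZA hZ2 hLOC hAF hAN hONE c η hc hη p hp
  have hC : ((c.toNNReal : ℝ≥0) : ℝ) = c := Real.coe_toNNReal c hc.le
  obtain ⟨t, ht0, ht1, hteq, htend⟩ := hAF c.toNNReal
  rw [hC] at hteq htend
  have hval : val c t ≤ Gam c := hAN c t hc hteq
  obtain ⟨k, hk⟩ := (htend.eventually (gt_mem_nhds (show val c t - 1 < val c t - 1 + η / 2 by
    linarith))).exists
  have hconv := hLOC c.toNNReal gA 1 continuous_gA (2 * k) phi continuous_phi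
  rw [hC] at hconv
  have hm : ∫ ω, phi (T gA 1 (2 * k) ω) ∂(Pm c.toNNReal) =
      ∫ ω, (T gA 1 (2 * k) ω).toReal ∂(Pm c.toNNReal) :=
    integral_congr_ae (Eventually.of_forall fun ω => phi_eq (T_le_one k ω))
  rw [hm] at hconv
  set m := ∫ ω, (T gA 1 (2 * k) ω).toReal ∂(Pm c.toNNReal) with hmdef
  have h1 := (hconv p hp).eventually (gt_mem_nhds (show (0 : ℝ) < η / 2 by linarith))
  filter_upwards [h1] with n hn
  obtain ⟨hp0, hp1⟩ := hp.1 n
  have h2 : EG n (p n) dfc / n ≤
      EG n (p n) (fun G => |(∑ v, phi (U gA 1 (2 * k) G v)) / n - m|) + m := by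
    rw [← EG_div, ← EG_const hONE n (p n) m, ← EG_add]
    refine EG_mono hp0 hp1 fun G => ?_
    have h3 : (∑ v, phi (U gA 1 (2 * k) G v)) = ∑ v, (U gA 1 (2 * k) G v).toReal :=
      Finset.sum_congr rfl fun v _ => phi_eq (hZ2 (Fin n) G k v).2
    have h4 := hZA (Fin n) G k
    rw [← h3] at h4
    have h5 : dfc G / n ≤ (∑ v, phi (U gA 1 (2 * k) G v)) / n :=
      div_le_div_of_nonneg_right h4 (Nat.cast_nonneg n)
    have h6 := le_abs_self ((∑ v, phi (U gA 1 (2 * k) G v)) / n - m)
    rw [EG_const hONE]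
    linarith
  linarith

end Pool.Agent.W308.PM
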